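import Mathlib

set_option autoImplicit false
set_option maxHeartbeats 400000

namespace Pool.Agent.Results.MP_e40659_an.Line

open Filter Topology

theorem not_inj (g : ℂ × ℂ → ℂ) (hg : Differentiable ℂ g) : ¬ Function.Injective g := by
  intro hi
  have hu : Differentiable ℂ fun t : ℂ => g (t, 0) := hg.comp (by fun_prop)
  have hv : Differentiable ℂ fun t : ℂ => g (0, t) := hg.comp (by fun_prop)
  have hopen : IsOpen (Set.range fun t : ℂ => g (t, 0)) := by
    rcases (hu.differentiableOn.analyticOnNhd isOpen_univ).is_constant_or_isOpen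
      isPreconnected_univ with ⟨w, hw⟩ | h
    · have := hi ((hw 0 trivial).trans (hw 1 trivial).symm)
      simp at this
    · simpa using h Set.univ le_rfl isOpen_univ
  have h1 : (fun t : ℂ => g (0, t)) ⁻¹' (Set.range fun t : ℂ => g (t, 0)) ∈ 𝓝 (0 : ℂ) :=
    (hopen.preimage hv.continuous).mem_nhds ⟨0, rfl⟩
  have h3 : (fun t : ℂ => g (0, t)) ⁻¹' (Set.range fun t : ℂ => g (t, 0)) ∩ {0}ᶜ ∈ 𝓝[≠] (0 : ℂ) :=
    inter_mem (mem_nhdsWithin_of_mem_nhds h1) self_mem_nhdsWithin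
  obtain ⟨t, ⟨s, hs⟩, ht⟩ := Filter.nonempty_of_mem h3
  exact ht (congrArg Prod.snd (hi hs)).symm

/-- `w ↦ a w + (3/4) N w` with `N = [[-xy, x²], [-y², xy]]` nilpotent -/
noncomputable def lin (a x y : ℂ) (w : ℂ × ℂ) : ℂ × ℂ :=
  (a * w.1 + 3 / 4 * x * (x * w.2 - y * w.1), a * w.2 + 3 / 4 * y * (x * w.2 - y * w.1))

theorem result (d : ℕ) (hd : 2 ≤ d) : ∃ G : ℂ → ℂ × ℂ → ℂ × ℂ,
    Differentiable ℂ (fun p : ℂ × ℂ × ℂ => G p.1 p.2) ∧
    (∀ l : ℂ, ‖l‖ = 1 →
      (∃ H : ℂ × ℂ → ℂ × ℂ, Differentiable ℂ H ∧ Function.LeftInverse H (G l) ∧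
        Function.RightInverse H (G l)) ∧ G l 0 = 0 ∧
      ∀ μ : ℂ, Module.End.HasEigenvalue (fderiv ℂ (G l) 0).toLinearMap μ → ‖μ‖ < 1) ∧
    ∃ p : ℂ, ‖p‖ = 1 ∧ ∀ S : Set (ℂ × ℂ),
      S = {w | Tendsto (fun n : ℕ =>
        ‖(fun z : ℂ × ℂ × ℂ => (z.1 ^ d, G z.1 z.2))^[n] (p, w) -
          (fun z : ℂ × ℂ × ℂ => (z.1 ^ d, G z.1 z.2))^[n] (p, 0)‖) atTop (𝓝 0)} →
      S ⊆ {w | 2 * w.1 + w.2 = 0} ∧
      ¬ ∃ Φ : ℂ × ℂ → ℂ × ℂ, Differentiable ℂ Φ ∧ Function.Injective Φ ∧ Set.range Φ = S := by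
  obtain ⟨e, rfl⟩ : ∃ e, d = e + 1 := ⟨d - 1, by omega⟩
  have hN : e * (e + 2) ≠ 0 := Nat.mul_ne_zero (by omega) (by omega)
  have hp := Complex.isPrimitiveRoot_exp _ hN
  generalize Complex.exp (2 * Real.pi * Complex.I / (e * (e + 2) : ℕ)) = p at hp
  have hp0 : p ≠ 0 := hp.ne_zero hN
  have h1 : (p ^ (e + 1)) ^ (e + 1) = p := by
    rw [← pow_mul, show (e + 1) * (e + 1) = e * (e + 2) + 1 by ring, pow_succ, hp.pow_eq_one,
      one_mul]
  have h2 : p ^ (e + 1) - p ≠ 0 := by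
    intro h
    have h3 : p ^ e = 1 := mul_right_cancel₀ hp0 (by rw [← pow_succ, one_mul]; exact sub_eq_zero.1 h)
    have h4 := Nat.le_of_dvd (by omega) (hp.dvd_of_pow_eq_one _ h3)
    nlinarith
  have hn : ‖p‖ = 1 := hp.norm'_eq_one hN
  generalize hq : p ^ (e + 1) = q at h1 h2
  refine ⟨fun l => lin (1 / 2) ((l - p) / (q - p)) (Complex.I * (q - l) / (q - p)), ?_,
    fun l _ => ?_, p, hn, ?_⟩
  · unfold lin
    fun_prop
  · beta_reduce
    generalize (l - p) / (q - p) = x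
    generalize Complex.I * (q - l) / (q - p) = y
    refine ⟨⟨lin 2 (2 * Complex.I * x) (2 * Complex.I * y), by unfold lin; fun_prop,
      fun w => ?_, fun w => ?_⟩, by simp [lin], fun μ hμ => ?_⟩
    · ext
      · simp only [lin]
        linear_combination (3 / 2 * x * (x * w.2 - y * w.1)) * Complex.I_mul_I
      · simp only [lin]
        linear_combination (3 / 2 * y * (x * w.2 - y * w.1)) * Complex.I_mul_I
    · ext
      · simp only [lin]
        linear_combination (3 / 2 * x * (x * w.2 - y * w.1)) * Complex.I_mul_I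
      · simp only [lin]
        linear_combination (3 / 2 * y * (x * w.2 - y * w.1)) * Complex.I_mul_I
    · let L : ℂ × ℂ →ₗ[ℂ] ℂ × ℂ :=
        { toFun := lin (1 / 2) x y
          map_add' := fun a b => by ext <;> simp only [lin, Prod.fst_add, Prod.snd_add] <;> ring
          map_smul' := fun c a => by
            ext <;> simp only [lin, Prod.smul_fst, Prod.smul_snd, smul_eq_mul, RingHom.id_apply] <;>
              ring }
      have e1 : fderiv ℂ (lin (1 / 2) x y) 0 = LinearMap.toContinuousLinearMap L :=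
        (LinearMap.toContinuousLinearMap L).fderiv
      rw [e1] at hμ
      obtain ⟨w, hw⟩ := hμ.exists_hasEigenvector
      have h3 : lin (1 / 2) x y w = μ • w := hw.apply_eq_smul
      have a1 : 1 / 2 * w.1 + 3 / 4 * x * (x * w.2 - y * w.1) = μ * w.1 := congrArg Prod.fst h3
      have a2 : 1 / 2 * w.2 + 3 / 4 * y * (x * w.2 - y * w.1) = μ * w.2 := congrArg Prod.snd h3
      have h4 : μ = 1 / 2 := by
        by_contra hne
        have h5 := pow_ne_zero 2 (sub_ne_zero.2 hne)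
        refine hw.2 (Prod.ext (mul_left_cancel₀ h5 ?_) (mul_left_cancel₀ h5 ?_))
        · simp only [Prod.fst_zero]
          linear_combination (-(μ - 1 / 2) + 3 / 4 * x * y) * a1 - 3 / 4 * x * x * a2
        · simp only [Prod.snd_zero]
          linear_combination (-(μ - 1 / 2) - 3 / 4 * x * y) * a2 + 3 / 4 * y * y * a1
      rw [h4]
      norm_num
  · rintro S rfl
    set F := fun z : ℂ × ℂ × ℂ => (z.1 ^ (e + 1),
      lin (1 / 2) ((z.1 - p) / (q - p)) (Complex.I * (q - z.1) / (q - p)) z.2) with hF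
    have two : ∀ w : ℂ × ℂ, F (F (p, w)) =
        (p, (13 / 16 * w.1 + 3 / 8 * w.2, 3 / 8 * w.1 + 1 / 4 * w.2)) := by
      intro w
      simp only [hF, hq, h1, sub_self, zero_div, mul_zero, div_self h2, mul_div_assoc, mul_one, lin]
      refine Prod.ext rfl (Prod.ext ?_ ?_)
      · simp only
        linear_combination (-9 / 16 * w.1) * Complex.I_mul_I
      · simp only
        linear_combination (-3 / 8 * w.1) * Complex.I_mul_I
    have inv : ∀ (n : ℕ) (w : ℂ × ℂ), ∃ v : ℂ × ℂ, F^[2 * n] (p, w) = (p, v) ∧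
        2 * v.1 + v.2 = 2 * w.1 + w.2 := by
      intro n w
      induction n with
      | zero => exact ⟨w, rfl, rfl⟩
      | succ n ih =>
        obtain ⟨v, h3, h4⟩ := ih
        refine ⟨_, by
          rw [mul_add, mul_one, add_comm, Function.iterate_add_apply, h3]
          exact two v, ?_⟩
        simp only
        linear_combination h4
    have sub : {w : ℂ × ℂ | Tendsto (fun n : ℕ => ‖F^[n] (p, w) - F^[n] (p, 0)‖) atTop (𝓝 0)} ⊆
        {w | 2 * w.1 + w.2 = 0} := by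
      intro w hw
      have h3 : Tendsto (fun n : ℕ => F^[2 * n] (p, w) - F^[2 * n] (p, 0)) atTop (𝓝 0) :=
        (tendsto_zero_iff_norm_tendsto_zero.2 hw).comp
          (tendsto_id.const_mul_atTop' (show 0 < 2 by norm_num))
      have h4 := (Continuous.tendsto' (f := fun z : ℂ × ℂ × ℂ => 2 * z.2.1 + z.2.2) (by fun_prop)
        0 0 (by simp)).comp h3
      refine tendsto_nhds_unique tendsto_const_nhds (h4.congr fun n => ?_)
      obtain ⟨v, a1, a2⟩ := inv n w
      obtain ⟨u, b1, b2⟩ := inv n 0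
      simp only [Function.comp, a1, b1, Prod.snd_sub, Prod.fst_sub]
      simp only [Prod.fst_zero, Prod.snd_zero] at b2
      linear_combination a2 - b2
    refine ⟨sub, ?_⟩
    rintro ⟨Φ, hΦ, hi, hr⟩
    refine not_inj (fun z => (Φ z).1) (by fun_prop) fun a b h => hi (Prod.ext h ?_)
    have ha : 2 * (Φ a).1 + (Φ a).2 = 0 := sub (hr ▸ Set.mem_range_self a)
    have hb : 2 * (Φ b).1 + (Φ b).2 = 0 := sub (hr ▸ Set.mem_range_self b)
    have h' : (Φ a).1 = (Φ b).1 := h
    linear_combination ha - hb - 2 * h'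

end Pool.Agent.Results.MP_e40659_an.Line
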